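import Mathlib
import Pool.Agent.H94.IC.Targets3

/-!
# Module CUB of MP_0ee698_an: the Poincaré inequality on cubes
-/

open MeasureTheory Set Filter Topology Metric
open scoped ENNReal NNReal ContDiff RealInnerProductSpace

namespace Pool.Agent.H19.IC

open Pool.Agent.H94.IC

/-- Lebesgue measure on the interval `[a, a + h]` -/
noncomputable abbrev mI (a h : ℝ) : Measure ℝ := volume.restrict (Icc a (a + h))

theorem mI_univ (a h : ℝ) (hh : 0 < h) : (mI a h).real univ = h := by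
  simp [mI, Measure.real, hh.le]

/-- Cauchy-Schwarz on an interval -/
theorem sq_int_le (s t : ℝ) (hst : s ≤ t) (g : ℝ → ℝ) (hg : ContinuousOn g (Icc s t)) :
    (∫ r in s..t, g r) ^ 2 ≤ (t - s) * ∫ r in s..t, g r ^ 2 := by
  rcases hst.eq_or_lt with h | h
  · subst h
    simp
  have hI : IntervalIntegrable g volume s t := by
    apply ContinuousOn.intervalIntegrable
    rwa [uIcc_of_le hst]
  have hI2 : IntervalIntegrable (fun r => g r ^ 2) volume s t := by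
    apply ContinuousOn.intervalIntegrable
    rw [uIcc_of_le hst]
    exact hg.pow 2
  set c := (∫ r in s..t, g r) / (t - s) with hc
  have h1 : 0 ≤ ∫ r in s..t, (g r - c) ^ 2 :=
    intervalIntegral.integral_nonneg hst fun r _ => sq_nonneg _
  have h2 : ∫ r in s..t, (g r - c) ^ 2
      = (∫ r in s..t, g r ^ 2) - 2 * c * (∫ r in s..t, g r) + (t - s) * c ^ 2 := by
    have h3 : ∀ r, (g r - c) ^ 2 = (g r ^ 2 - 2 * c * g r) + c ^ 2 := fun r => by ring
    simp_rw [h3]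
    rw [intervalIntegral.integral_add (hI2.sub (hI.const_mul _)) intervalIntegrable_const,
      intervalIntegral.integral_sub hI2 (hI.const_mul _), intervalIntegral.integral_const_mul,
      intervalIntegral.integral_const, smul_eq_mul]
  have ht : 0 < t - s := by linarith
  have h4 : (∫ r in s..t, g r) = c * (t - s) := by
    rw [hc, div_mul_cancel₀ _ ht.ne']
  rw [h2, h4] at h1
  rw [h4]
  nlinarith

/-- two points of an interval -/
theorem diff_sq_le (a h : ℝ) (hh : 0 < h) (f g : ℝ → ℝ) (hg : ContinuousOn g (Icc a (a + h)))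
    (hd : ∀ r ∈ Icc a (a + h), HasDerivAt f (g r) r) (s t : ℝ) (hs : s ∈ Icc a (a + h))
    (ht : t ∈ Icc a (a + h)) : (f s - f t) ^ 2 ≤ h * ∫ r, g r ^ 2 ∂(mI a h) := by
  wlog hst : s ≤ t generalizing s t
  · have := this t s ht hs (le_of_not_ge hst)
    calc (f s - f t) ^ 2 = (f t - f s) ^ 2 := by ring
      _ ≤ _ := this
  have hsub : Icc s t ⊆ Icc a (a + h) := Icc_subset_Icc hs.1 ht.2
  have h1 : ∫ r in s..t, g r = f t - f s := by
    apply intervalIntegral.integral_eq_sub_of_hasDerivAt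
    · intro x hx
      rw [uIcc_of_le hst] at hx
      exact hd x (hsub hx)
    · apply ContinuousOn.intervalIntegrable
      rw [uIcc_of_le hst]
      exact hg.mono hsub
  have h2 := sq_int_le s t hst g (hg.mono hsub)
  have h3 : ∫ r in s..t, g r ^ 2 ≤ ∫ r, g r ^ 2 ∂(mI a h) := by
    rw [intervalIntegral.integral_of_le hst]
    refine setIntegral_mono_set ?_ (ae_of_all _ fun r => sq_nonneg _) ?_
    · exact (hg.pow 2).integrableOn_Icc
    · exact (Ioc_subset_Icc_self.trans hsub).eventuallyLE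
  have h4 : 0 ≤ ∫ r in s..t, g r ^ 2 := intervalIntegral.integral_nonneg hst fun r _ => sq_nonneg _
  calc (f s - f t) ^ 2 = (∫ r in s..t, g r) ^ 2 := by rw [h1]; ring
    _ ≤ (t - s) * ∫ r in s..t, g r ^ 2 := h2
    _ ≤ h * ∫ r in s..t, g r ^ 2 := by
        apply mul_le_mul_of_nonneg_right _ h4
        linarith [hs.1, ht.2]
    _ ≤ _ := mul_le_mul_of_nonneg_left h3 hh.le

/-- continuous functions are integrable on boxes -/
theorem cint2 (a b h : ℝ) (f : ℝ × ℝ → ℝ) (hf : Continuous f) :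
    Integrable f ((mI a h).prod (mI b h)) := by
  rw [Measure.prod_restrict, Icc_prod_Icc]
  exact hf.integrableOn_Icc

theorem cint3 (a b c h : ℝ) (f : ℝ × ℝ × ℝ → ℝ) (hf : Continuous f) :
    Integrable f ((mI a h).prod ((mI b h).prod (mI c h))) := by
  rw [Measure.prod_restrict, Icc_prod_Icc, Measure.prod_restrict, Icc_prod_Icc]
  exact hf.integrableOn_Icc

theorem cint6 (a b c h : ℝ) (f : (ℝ × ℝ × ℝ) × (ℝ × ℝ × ℝ) → ℝ) (hf : Continuous f) :
    Integrable f (((mI a h).prod ((mI b h).prod (mI c h))).prod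
      ((mI a h).prod ((mI b h).prod (mI c h)))) := by
  rw [Measure.prod_restrict, Icc_prod_Icc, Measure.prod_restrict, Icc_prod_Icc,
    Measure.prod_restrict, Icc_prod_Icc]
  exact hf.integrableOn_Icc

/-- integral of a continuous function over one variable is continuous -/
theorem cpar {X : Type} [TopologicalSpace X] [FirstCountableTopology X]
    [LocallyCompactSpace X] (a h : ℝ) (f : X → ℝ → ℝ)
    (hf : Continuous (Function.uncurry f)) : Continuous fun x => ∫ t, f x t ∂(mI a h) := by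
  exact continuous_parametric_integral_of_continuous hf isCompact_Icc

theorem mem_mI (a h : ℝ) : ∀ᵐ t ∂(mI a h), t ∈ Icc a (a + h) := ae_restrict_mem measurableSet_Icc

theorem mem6 (a b c h : ℝ) : ∀ᵐ z ∂(((mI a h).prod ((mI b h).prod (mI c h))).prod
      ((mI a h).prod ((mI b h).prod (mI c h)))),
    (z.1.1 ∈ Icc a (a + h) ∧ z.1.2.1 ∈ Icc b (b + h) ∧ z.1.2.2 ∈ Icc c (c + h)) ∧
    (z.2.1 ∈ Icc a (a + h) ∧ z.2.2.1 ∈ Icc b (b + h) ∧ z.2.2.2 ∈ Icc c (c + h)) := by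
  rw [Measure.prod_restrict, Measure.prod_restrict, Measure.prod_restrict]
  have h1 : MeasurableSet (Icc a (a + h) ×ˢ (Icc b (b + h) ×ˢ Icc c (c + h))) :=
    measurableSet_Icc.prod (measurableSet_Icc.prod measurableSet_Icc)
  refine (ae_restrict_mem (h1.prod h1)).mono ?_
  rintro ⟨⟨x, y, z⟩, ⟨x', y', z'⟩⟩ hz
  simp only [mem_prod] at hz
  exact hz

theorem m3_univ (a b c h : ℝ) (hh : 0 < h) :
    ((mI a h).prod ((mI b h).prod (mI c h))).real univ = h ^ 3 := by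
  have h1 := mI_univ a h hh
  have h2 := mI_univ b h hh
  have h3 := mI_univ c h hh
  rw [← univ_prod_univ, measureReal_prod_prod, ← univ_prod_univ, measureReal_prod_prod, h1, h2, h3]
  ring

section Main

variable (a b c h : ℝ) (hh : 0 < h)

include hh

theorem int_g0 (G : ℝ × ℝ × ℝ → ℝ) (hG : Continuous G) :
    ∫ z, (∫ r, G (r, z.1.2.1, z.1.2.2) ∂(mI a h)) ∂(((mI a h).prod ((mI b h).prod (mI c h))).prod
      ((mI a h).prod ((mI b h).prod (mI c h))))
    = h ^ 4 * ∫ x, G x ∂((mI a h).prod ((mI b h).prod (mI c h))) := by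
  rw [integral_fun_fst (μ := ((mI a h).prod ((mI b h).prod (mI c h))))
    (fun x : ℝ × ℝ × ℝ => ∫ r, G (r, x.2.1, x.2.2) ∂(mI a h)), m3_univ a b c h hh,
    integral_fun_snd (fun x : ℝ × ℝ => ∫ r, G (r, x.1, x.2) ∂(mI a h)), mI_univ a h hh,
    integral_prod_symm _ (cint3 a b c h G hG), smul_eq_mul, smul_eq_mul]
  ring

theorem int_g2 (G : ℝ × ℝ × ℝ → ℝ) (hG : Continuous G) :
    ∫ z, (∫ r, G (z.2.1, z.2.2.1, r) ∂(mI c h)) ∂(((mI a h).prod ((mI b h).prod (mI c h))).prod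
      ((mI a h).prod ((mI b h).prod (mI c h))))
    = h ^ 4 * ∫ x, G x ∂((mI a h).prod ((mI b h).prod (mI c h))) := by
  rw [integral_fun_snd (μ := ((mI a h).prod ((mI b h).prod (mI c h))))
    (fun x : ℝ × ℝ × ℝ => ∫ r, G (x.1, x.2.1, r) ∂(mI c h)), m3_univ a b c h hh]
  have hc : Continuous fun x : ℝ × ℝ × ℝ => ∫ r, G (x.1, x.2.1, r) ∂(mI c h) := by
    apply cpar c h (fun (x : ℝ × ℝ × ℝ) r => G (x.1, x.2.1, r))
    fun_prop
  rw [integral_prod _ (cint3 a b c h _ hc), integral_prod _ (cint3 a b c h G hG)]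
  have h1 : ∀ x : ℝ, ∫ y, (∫ r, G (x, y.1, r) ∂(mI c h)) ∂((mI b h).prod (mI c h))
      = h * ∫ y, G (x, y) ∂((mI b h).prod (mI c h)) := by
    intro x
    rw [integral_fun_fst (fun y : ℝ => ∫ r, G (x, y, r) ∂(mI c h)), mI_univ c h hh,
      integral_prod _ (cint2 b c h _ (by fun_prop)), smul_eq_mul]
  simp_rw [h1]
  rw [integral_const_mul, smul_eq_mul]
  ring

theorem int_g1 (G : ℝ × ℝ × ℝ → ℝ) (hG : Continuous G) :
    ∫ z, (∫ r, G (z.2.1, r, z.1.2.2) ∂(mI b h)) ∂(((mI a h).prod ((mI b h).prod (mI c h))).prod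
      ((mI a h).prod ((mI b h).prod (mI c h))))
    = h ^ 4 * ∫ x, G x ∂((mI a h).prod ((mI b h).prod (mI c h))) := by
  have hc : Continuous fun z : (ℝ × ℝ × ℝ) × (ℝ × ℝ × ℝ) =>
      ∫ r, G (z.2.1, r, z.1.2.2) ∂(mI b h) := by
    apply cpar b h (fun (z : (ℝ × ℝ × ℝ) × (ℝ × ℝ × ℝ)) r => G (z.2.1, r, z.1.2.2))
    fun_prop
  have hg : Continuous fun z : ℝ × ℝ => ∫ r, G (z.1, r, z.2) ∂(mI b h) := by
    apply cpar b h (fun (z : ℝ × ℝ) r => G (z.1, r, z.2))
    fun_prop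
  rw [integral_prod _ (cint6 a b c h _ hc)]
  have h1 : ∀ x : ℝ × ℝ × ℝ, ∫ y, (∫ r, G (y.1, r, x.2.2) ∂(mI b h))
      ∂((mI a h).prod ((mI b h).prod (mI c h)))
      = h ^ 2 * ∫ y, (∫ r, G (y, r, x.2.2) ∂(mI b h)) ∂(mI a h) := by
    intro x
    rw [integral_fun_fst (fun y : ℝ => ∫ r, G (y, r, x.2.2) ∂(mI b h)), ← univ_prod_univ,
      measureReal_prod_prod, mI_univ b h hh, mI_univ c h hh, smul_eq_mul]
    ring
  simp_rw [h1]
  rw [integral_const_mul, integral_fun_snd (fun x : ℝ × ℝ =>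
      ∫ y, (∫ r, G (y, r, x.2) ∂(mI b h)) ∂(mI a h)), mI_univ a h hh,
    integral_fun_snd (fun x : ℝ => ∫ y, (∫ r, G (y, r, x) ∂(mI b h)) ∂(mI a h)), mI_univ b h hh]
  have h2 : ∫ x, G x ∂((mI a h).prod ((mI b h).prod (mI c h)))
      = ∫ x, (∫ y, (∫ r, G (x, r, y) ∂(mI b h)) ∂(mI c h)) ∂(mI a h) := by
    rw [integral_prod _ (cint3 a b c h G hG)]
    refine integral_congr_ae (ae_of_all _ fun x => ?_)
    exact integral_prod_symm _ (cint2 b c h _ (by fun_prop))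
  have h3 := integral_integral_swap (μ := mI a h) (ν := mI c h)
    (f := fun x y => ∫ r, G (x, r, y) ∂(mI b h)) (cint2 a c h _ hg)
  rw [h2, h3, smul_eq_mul, smul_eq_mul]
  ring

/-- the Poincaré inequality for continuous functions on a box -/
theorem cube3 (V G0 G1 G2 : ℝ × ℝ × ℝ → ℝ) (hV : Continuous V) (h0 : Continuous G0)
    (h1 : Continuous G1) (h2 : Continuous G2)
    (d0 : ∀ s ∈ Icc a (a + h), ∀ t ∈ Icc a (a + h), ∀ x ∈ Icc b (b + h), ∀ y ∈ Icc c (c + h),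
      (V (s, x, y) - V (t, x, y)) ^ 2 ≤ h * ∫ r, G0 (r, x, y) ∂(mI a h))
    (d1 : ∀ s ∈ Icc b (b + h), ∀ t ∈ Icc b (b + h), ∀ x ∈ Icc a (a + h), ∀ y ∈ Icc c (c + h),
      (V (x, s, y) - V (x, t, y)) ^ 2 ≤ h * ∫ r, G1 (x, r, y) ∂(mI b h))
    (d2 : ∀ s ∈ Icc c (c + h), ∀ t ∈ Icc c (c + h), ∀ x ∈ Icc a (a + h), ∀ y ∈ Icc b (b + h),
      (V (x, y, s) - V (x, y, t)) ^ 2 ≤ h * ∫ r, G2 (x, y, r) ∂(mI c h)) :
    2 * h ^ 3 * ∫ x, V x ^ 2 ∂((mI a h).prod ((mI b h).prod (mI c h)))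
      ≤ 2 * (∫ x, V x ∂((mI a h).prod ((mI b h).prod (mI c h)))) ^ 2
        + 3 * h ^ 5 * ∫ x, (G0 x + G1 x + G2 x) ∂((mI a h).prod ((mI b h).prod (mI c h))) := by
  set μ := (mI a h).prod ((mI b h).prod (mI c h)) with hμ
  have e1 : ∫ z, (V z.1 - V z.2) ^ 2 ∂(μ.prod μ) = 2 * h ^ 3 * (∫ x, V x ^ 2 ∂μ)
      - 2 * (∫ x, V x ∂μ) ^ 2 := by
    have e2 : ∀ z : (ℝ × ℝ × ℝ) × (ℝ × ℝ × ℝ), (V z.1 - V z.2) ^ 2
        = (V z.1 ^ 2 + V z.2 ^ 2) - 2 * (V z.1 * V z.2) := fun z => by ring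
    simp_rw [e2]
    rw [integral_sub, integral_add, integral_const_mul, integral_prod_mul,
      integral_fun_fst (fun x => V x ^ 2), integral_fun_snd (fun x => V x ^ 2),
      m3_univ a b c h hh, smul_eq_mul]
    · ring
    · exact cint6 a b c h (fun z => V z.1 ^ 2) (by fun_prop)
    · exact cint6 a b c h (fun z => V z.2 ^ 2) (by fun_prop)
    · exact cint6 a b c h (fun z => V z.1 ^ 2 + V z.2 ^ 2) (by fun_prop)
    · exact cint6 a b c h (fun z => 2 * (V z.1 * V z.2)) (by fun_prop)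
  have c0 : Continuous fun z : (ℝ × ℝ × ℝ) × (ℝ × ℝ × ℝ) =>
      ∫ r, G0 (r, z.1.2.1, z.1.2.2) ∂(mI a h) := by
    apply cpar a h (fun (z : (ℝ × ℝ × ℝ) × (ℝ × ℝ × ℝ)) r => G0 (r, z.1.2.1, z.1.2.2))
    fun_prop
  have c1 : Continuous fun z : (ℝ × ℝ × ℝ) × (ℝ × ℝ × ℝ) =>
      ∫ r, G1 (z.2.1, r, z.1.2.2) ∂(mI b h) := by
    apply cpar b h (fun (z : (ℝ × ℝ × ℝ) × (ℝ × ℝ × ℝ)) r => G1 (z.2.1, r, z.1.2.2))
    fun_prop
  have c2 : Continuous fun z : (ℝ × ℝ × ℝ) × (ℝ × ℝ × ℝ) =>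
      ∫ r, G2 (z.2.1, z.2.2.1, r) ∂(mI c h) := by
    apply cpar c h (fun (z : (ℝ × ℝ × ℝ) × (ℝ × ℝ × ℝ)) r => G2 (z.2.1, z.2.2.1, r))
    fun_prop
  have e3 : ∫ z, (V z.1 - V z.2) ^ 2 ∂(μ.prod μ) ≤ ∫ z, 3 * h *
      ((∫ r, G0 (r, z.1.2.1, z.1.2.2) ∂(mI a h)) + (∫ r, G1 (z.2.1, r, z.1.2.2) ∂(mI b h))
        + ∫ r, G2 (z.2.1, z.2.2.1, r) ∂(mI c h)) ∂(μ.prod μ) := by
    refine integral_mono_ae (cint6 a b c h (fun z => (V z.1 - V z.2) ^ 2) (by fun_prop))
      (cint6 a b c h _ (by fun_prop)) ?_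
    filter_upwards [mem6 a b c h] with z hz
    obtain ⟨⟨x, y, w⟩, ⟨x', y', w'⟩⟩ := z
    obtain ⟨⟨hx, hy, hw⟩, hx', hy', hw'⟩ := hz
    have k0 := d0 x hx x' hx' y hy w hw
    have k1 := d1 y hy y' hy' x' hx' w hw
    have k2 := d2 w hw w' hw' x' hx' y' hy'
    simp only
    have k3 : (V (x, y, w) - V (x', y', w')) ^ 2 ≤ 3 * ((V (x, y, w) - V (x', y, w)) ^ 2
        + (V (x', y, w) - V (x', y', w)) ^ 2 + (V (x', y', w) - V (x', y', w')) ^ 2) := by
      nlinarith [sq_nonneg ((V (x, y, w) - V (x', y, w)) - (V (x', y, w) - V (x', y', w))),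
        sq_nonneg ((V (x', y, w) - V (x', y', w)) - (V (x', y', w) - V (x', y', w'))),
        sq_nonneg ((V (x, y, w) - V (x', y, w)) - (V (x', y', w) - V (x', y', w')))]
    nlinarith
  have e4 : ∫ z, 3 * h *
      ((∫ r, G0 (r, z.1.2.1, z.1.2.2) ∂(mI a h)) + (∫ r, G1 (z.2.1, r, z.1.2.2) ∂(mI b h))
        + ∫ r, G2 (z.2.1, z.2.2.1, r) ∂(mI c h)) ∂(μ.prod μ)
      = 3 * h ^ 5 * ∫ x, (G0 x + G1 x + G2 x) ∂μ := by
    rw [integral_const_mul, integral_add, integral_add, int_g0 a b c h hh G0 h0,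
      int_g1 a b c h hh G1 h1, int_g2 a b c h hh G2 h2, integral_add, integral_add]
    · ring
    · exact cint3 a b c h G0 h0
    · exact cint3 a b c h G1 h1
    · exact cint3 a b c h (fun x => G0 x + G1 x) (by fun_prop)
    · exact cint3 a b c h G2 h2
    · exact cint6 a b c h _ c0
    · exact cint6 a b c h _ c1
    · exact cint6 a b c h _ (c0.add c1)
    · exact cint6 a b c h _ c2
  rw [e1, e4] at e3
  linarith

end Main

/-- coordinates -/
noncomputable def Phi : (ℝ × ℝ × ℝ) ≃ᵐ E :=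
  ((MeasurableEquiv.prodCongr (MeasurableEquiv.refl ℝ)
    (MeasurableEquiv.finTwoArrow (α := ℝ)).symm).trans
    (MeasurableEquiv.piFinSuccAbove (fun _ : Fin 3 => ℝ) 0).symm).trans
    (MeasurableEquiv.toLp 2 (Fin 3 → ℝ))

theorem Phi_mp : MeasurePreserving Phi := by
  have h1 : MeasurePreserving (MeasurableEquiv.prodCongr (MeasurableEquiv.refl ℝ)
      (MeasurableEquiv.finTwoArrow (α := ℝ)).symm) :=
    (MeasurePreserving.id volume).prod ((volume_preserving_finTwoArrow ℝ).symm _)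
  have h2 := (volume_preserving_piFinSuccAbove (fun _ : Fin 3 => ℝ) 0).symm _
  have h3 : MeasurePreserving (MeasurableEquiv.toLp 2 (Fin 3 → ℝ)) :=
    PiLp.volume_preserving_toLp (Fin 3)
  exact h3.comp (h2.comp h1)

theorem Phi_apply (p : ℝ × ℝ × ℝ) : Phi p = !₂[p.1, p.2.1, p.2.2] := by
  obtain ⟨x, y, z⟩ := p
  ext k
  fin_cases k <;> rfl

theorem cube_int (a : E) (h : ℝ) (f : E → ℝ) :
    ∫ x in {x : E | ∀ k, a k < x k ∧ x k < a k + h}, f x
      = ∫ p, f (Phi p) ∂((mI (a 0) h).prod ((mI (a 1) h).prod (mI (a 2) h))) := by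
  rw [← Phi_mp.setIntegral_preimage_emb Phi.measurableEmbedding]
  have h1 : Phi ⁻¹' {x : E | ∀ k, a k < x k ∧ x k < a k + h}
      = Ioo (a 0) (a 0 + h) ×ˢ (Ioo (a 1) (a 1 + h) ×ˢ Ioo (a 2) (a 2 + h)) := by
    ext p
    rw [mem_preimage, Phi_apply]
    simp [Fin.forall_fin_succ, mem_prod]
  have h2 : ∀ b : ℝ, mI b h = volume.restrict (Ioo b (b + h)) := fun b =>
    Measure.restrict_congr_set Ioo_ae_eq_Icc.symm
  rw [h1, h2, h2, h2, Measure.prod_restrict, Measure.prod_restrict]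
  rfl

/-- clamping -/
noncomputable def cl (a h t : ℝ) : ℝ := max a (min t (a + h))

theorem cl_mem (a h t : ℝ) (hh : 0 < h) : cl a h t ∈ Icc a (a + h) :=
  ⟨le_max_left _ _, max_le (by linarith) (min_le_right _ _)⟩

theorem cl_eq (a h t : ℝ) (ht : t ∈ Icc a (a + h)) : cl a h t = t := by
  unfold cl
  rw [min_eq_left ht.2, max_eq_right ht.1]

theorem cl_cont (a h : ℝ) : Continuous (cl a h) := by
  unfold cl
  fun_prop

/-- clamping in the cube -/
noncomputable def clE (a : E) (h : ℝ) (p : ℝ × ℝ × ℝ) : E :=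
  !₂[cl (a 0) h p.1, cl (a 1) h p.2.1, cl (a 2) h p.2.2]

theorem clE_cont (a : E) (h : ℝ) : Continuous (clE a h) := by
  have h1 : Continuous fun p : ℝ × ℝ × ℝ => ![cl (a 0) h p.1, cl (a 1) h p.2.1, cl (a 2) h p.2.2] := by
    refine continuous_pi fun k => ?_
    fin_cases k
    · exact (cl_cont _ _).comp (by fun_prop)
    · exact (cl_cont _ _).comp (by fun_prop)
    · exact (cl_cont _ _).comp (by fun_prop)
  exact (PiLp.continuous_toLp 2 _).comp h1

theorem clE_mem (a : E) (h : ℝ) (hh : 0 < h) (p : ℝ × ℝ × ℝ) :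
    clE a h p ∈ {x : E | ∀ k, a k ≤ x k ∧ x k ≤ a k + h} := by
  intro k
  fin_cases k
  · exact cl_mem (a 0) h p.1 hh
  · exact cl_mem (a 1) h p.2.1 hh
  · exact cl_mem (a 2) h p.2.2 hh

theorem clE_eq (a : E) (h : ℝ) (x y z : ℝ) (hx : x ∈ Icc (a 0) (a 0 + h))
    (hy : y ∈ Icc (a 1) (a 1 + h)) (hz : z ∈ Icc (a 2) (a 2 + h)) :
    clE a h (x, y, z) = !₂[x, y, z] := by
  unfold clE
  rw [cl_eq _ _ _ hx, cl_eq _ _ _ hy, cl_eq _ _ _ hz]

/-- two points on a line of the cube -/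
theorem line_diff (U : Set E) (v : E → ℝ) (hU : IsOpen U) (hv : ContDiffOn ℝ 1 v U) (z e : E)
    (a h : ℝ) (hh : 0 < h) (hz : ∀ r ∈ Icc a (a + h), z + r • e ∈ U) (s t : ℝ)
    (hs : s ∈ Icc a (a + h)) (ht : t ∈ Icc a (a + h)) :
    (v (z + s • e) - v (z + t • e)) ^ 2 ≤ h * ∫ r, (fderiv ℝ v (z + r • e) e) ^ 2 ∂(mI a h) := by
  refine diff_sq_le a h hh (fun r => v (z + r • e)) (fun r => fderiv ℝ v (z + r • e) e)
    ?_ ?_ s t hs ht
  · have h1 : ContinuousOn (fun x => fderiv ℝ v x e) U :=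
      (hv.continuousOn_fderiv_of_isOpen hU le_rfl).clm_apply continuousOn_const
    exact h1.comp (by fun_prop) hz
  · intro r hr
    have h1 : DifferentiableAt ℝ v (z + r • e) :=
      (hv.contDiffAt (hU.mem_nhds (hz r hr))).differentiableAt one_ne_zero
    have h2 : HasDerivAt (fun r : ℝ => z + r • e) e r := by
      simpa using ((hasDerivAt_id r).smul_const e).const_add z
    exact h1.hasFDerivAt.comp_hasDerivAt r h2

theorem gr_sq (v : E → ℝ) (x : E) : ‖gr v x‖ ^ 2 = fderiv ℝ v x (ev 0) ^ 2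
    + fderiv ℝ v x (ev 1) ^ 2 + fderiv ℝ v x (ev 2) ^ 2 := by
  have h1 : ∀ k : Fin 3, (gr v x) k = fderiv ℝ v x (ev k) := by
    intro k
    have h2 : ⟪gr v x, ev k⟫ = fderiv ℝ v x (ev k) := by
      unfold gr gradient
      exact InnerProductSpace.toDual_symm_apply
    rw [← h2, EuclideanSpace.inner_single_right]
    simp
  rw [EuclideanSpace.norm_sq_eq, Fin.sum_univ_three, h1, h1, h1]
  simp [sq_abs]

/-- module CUB -/
theorem CUB_proof : T_CUB := by
  intro a h U v hh hU hQ hv hz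
  have hvc : ContinuousOn v U := hv.continuousOn
  have hdc : ∀ e : E, ContinuousOn (fun x => fderiv ℝ v x e) U := fun e =>
    (hv.continuousOn_fderiv_of_isOpen hU le_rfl).clm_apply continuousOn_const
  have hmem : ∀ p, clE a h p ∈ U := fun p => hQ (clE_mem a h hh p)
  have hV : Continuous fun p => v (clE a h p) := hvc.comp_continuous (clE_cont a h) hmem
  have hG : ∀ e : E, Continuous fun p => fderiv ℝ v (clE a h p) e ^ 2 := fun e =>
    ((hdc e).comp_continuous (clE_cont a h) hmem).pow 2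
  have key := cube3 (a 0) (a 1) (a 2) h hh (fun p => v (clE a h p))
    (fun p => fderiv ℝ v (clE a h p) (ev 0) ^ 2) (fun p => fderiv ℝ v (clE a h p) (ev 1) ^ 2)
    (fun p => fderiv ℝ v (clE a h p) (ev 2) ^ 2) hV (hG _) (hG _) (hG _) ?_ ?_ ?_
  · have hmu : ∀ᵐ p ∂((mI (a 0) h).prod ((mI (a 1) h).prod (mI (a 2) h))),
        clE a h p = Phi p := by
      rw [Measure.prod_restrict, Measure.prod_restrict]
      refine (ae_restrict_mem (measurableSet_Icc.prod (measurableSet_Icc.prod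
        measurableSet_Icc))).mono ?_
      rintro ⟨x, y, z⟩ hp
      simp only [mem_prod] at hp
      rw [clE_eq a h x y z hp.1 hp.2.1 hp.2.2, Phi_apply]
    have q1 : ∫ x in {x : E | ∀ k, a k < x k ∧ x k < a k + h}, v x
        = ∫ p, v (clE a h p) ∂((mI (a 0) h).prod ((mI (a 1) h).prod (mI (a 2) h))) := by
      rw [cube_int]
      refine integral_congr_ae ?_
      filter_upwards [hmu] with p hp
      rw [hp]
    have q2 : ∫ x in {x : E | ∀ k, a k < x k ∧ x k < a k + h}, v x ^ 2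
        = ∫ p, v (clE a h p) ^ 2 ∂((mI (a 0) h).prod ((mI (a 1) h).prod (mI (a 2) h))) := by
      rw [cube_int]
      refine integral_congr_ae ?_
      filter_upwards [hmu] with p hp
      rw [hp]
    have q3 : ∫ x in {x : E | ∀ k, a k < x k ∧ x k < a k + h}, ‖gr v x‖ ^ 2
        = ∫ p, (fderiv ℝ v (clE a h p) (ev 0) ^ 2 + fderiv ℝ v (clE a h p) (ev 1) ^ 2
          + fderiv ℝ v (clE a h p) (ev 2) ^ 2)
          ∂((mI (a 0) h).prod ((mI (a 1) h).prod (mI (a 2) h))) := by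
      rw [cube_int]
      refine integral_congr_ae ?_
      filter_upwards [hmu] with p hp
      rw [hp]
      exact gr_sq v _
    rw [q2, q3]
    rw [← q1, hz] at key
    have hnn : 0 ≤ ∫ p, (fderiv ℝ v (clE a h p) (ev 0) ^ 2 + fderiv ℝ v (clE a h p) (ev 1) ^ 2
          + fderiv ℝ v (clE a h p) (ev 2) ^ 2)
          ∂((mI (a 0) h).prod ((mI (a 1) h).prod (mI (a 2) h))) :=
      integral_nonneg fun p => by positivity
    set X := ∫ p, v (clE a h p) ^ 2 ∂((mI (a 0) h).prod ((mI (a 1) h).prod (mI (a 2) h)))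
    set Y := ∫ p, (fderiv ℝ v (clE a h p) (ev 0) ^ 2 + fderiv ℝ v (clE a h p) (ev 1) ^ 2
          + fderiv ℝ v (clE a h p) (ev 2) ^ 2)
          ∂((mI (a 0) h).prod ((mI (a 1) h).prod (mI (a 2) h)))
    have h3 : 0 < h ^ 3 := by positivity
    have h4 : h ^ 3 * (2 * X) ≤ h ^ 3 * (3 * h ^ 2 * Y) := by
      calc h ^ 3 * (2 * X) = 2 * h ^ 3 * X := by ring
        _ ≤ _ := key
        _ = h ^ 3 * (3 * h ^ 2 * Y) := by ring
    have h5 := le_of_mul_le_mul_left h4 h3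
    have h6 : 0 ≤ 3 * h ^ 2 * Y := by positivity
    linarith
  · intro s hs t ht x hx y hy
    have hl : ∀ r : ℝ, (!₂[r, x, y] : E) = !₂[0, x, y] + r • ev 0 := by
      intro r
      ext k
      fin_cases k <;> simp [ev]
    have hU' : ∀ r ∈ Icc (a 0) (a 0 + h), (!₂[0, x, y] : E) + r • ev 0 ∈ U := by
      intro r hr
      rw [← hl, ← clE_eq a h r x y hr hx hy]
      exact hmem _
    have h1 := line_diff U v hU hv !₂[0, x, y] (ev 0) (a 0) h hh hU' s t hs ht
    simp only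
    rw [clE_eq a h s x y hs hx hy, clE_eq a h t x y ht hx hy, hl s, hl t]
    refine h1.trans (le_of_eq ?_)
    congr 1
    refine integral_congr_ae ?_
    filter_upwards [mem_mI (a 0) h] with r hr
    rw [clE_eq a h r x y hr hx hy, hl r]
  · intro s hs t ht x hx y hy
    have hl : ∀ r : ℝ, (!₂[x, r, y] : E) = !₂[x, 0, y] + r • ev 1 := by
      intro r
      ext k
      fin_cases k <;> simp [ev]
    have hU' : ∀ r ∈ Icc (a 1) (a 1 + h), (!₂[x, 0, y] : E) + r • ev 1 ∈ U := by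
      intro r hr
      rw [← hl, ← clE_eq a h x r y hx hr hy]
      exact hmem _
    have h1 := line_diff U v hU hv !₂[x, 0, y] (ev 1) (a 1) h hh hU' s t hs ht
    simp only
    rw [clE_eq a h x s y hx hs hy, clE_eq a h x t y hx ht hy, hl s, hl t]
    refine h1.trans (le_of_eq ?_)
    congr 1
    refine integral_congr_ae ?_
    filter_upwards [mem_mI (a 1) h] with r hr
    rw [clE_eq a h x r y hx hr hy, hl r]
  · intro s hs t ht x hx y hy
    have hl : ∀ r : ℝ, (!₂[x, y, r] : E) = !₂[x, y, 0] + r • ev 2 := by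
      intro r
      ext k
      fin_cases k <;> simp [ev]
    have hU' : ∀ r ∈ Icc (a 2) (a 2 + h), (!₂[x, y, 0] : E) + r • ev 2 ∈ U := by
      intro r hr
      rw [← hl, ← clE_eq a h x y r hx hy hr]
      exact hmem _
    have h1 := line_diff U v hU hv !₂[x, y, 0] (ev 2) (a 2) h hh hU' s t hs ht
    simp only
    rw [clE_eq a h x y s hx hy hs, clE_eq a h x y t hx hy ht, hl s, hl t]
    refine h1.trans (le_of_eq ?_)
    congr 1
    refine integral_congr_ae ?_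
    filter_upwards [mem_mI (a 2) h] with r hr
    rw [clE_eq a h x y r hx hy hr, hl r]

end Pool.Agent.H19.IC
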