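import Mathlib
import Pool.Agent.H94.IC.Targets3

/-!
# Module GRM of MP_0ee698_an: the Gram determinant argument
-/

open MeasureTheory Set Filter Topology Metric
open scoped ENNReal NNReal ContDiff RealInnerProductSpace Matrix

namespace Pool.Agent.H19.IC

open Pool.Agent.H94.IC

/-- determinant of a positive semidefinite matrix with bounded diagonal -/
theorem det_le_diag {p : ℕ} (M : Matrix (Fin p) (Fin p) ℝ) (hM : M.PosSemidef) (c : ℝ)
    (_ : 0 ≤ c) (hd : ∀ i, M i i ≤ c) : M.det ≤ c ^ p := by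
  rcases Nat.eq_zero_or_pos p with hp | hp
  · subst hp
    simp
  have hpR : (0 : ℝ) < p := by exact_mod_cast hp
  have hdet : M.det = ∏ i, hM.1.eigenvalues i := by
    have h := hM.1.det_eq_prod_eigenvalues
    simpa using h
  have htr : M.trace = ∑ i, hM.1.eigenvalues i := by
    have h := hM.1.trace_eq_sum_eigenvalues
    simpa using h
  have hnn : ∀ i, 0 ≤ hM.1.eigenvalues i := fun i => hM.eigenvalues_nonneg i
  have h1 := Real.geom_mean_le_arith_mean_weighted Finset.univ (fun _ : Fin p => (p : ℝ)⁻¹)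
    hM.1.eigenvalues (fun _ _ => by positivity) (by
      rw [Finset.sum_const, Finset.card_univ, Fintype.card_fin, nsmul_eq_mul]
      exact mul_inv_cancel₀ hpR.ne') (fun i _ => hnn i)
  have h2 : ∑ i, (p : ℝ)⁻¹ * hM.1.eigenvalues i ≤ c := by
    rw [← Finset.mul_sum, ← htr, inv_mul_le_iff₀ hpR]
    unfold Matrix.trace
    calc ∑ i, M.diag i ≤ ∑ _i : Fin p, c := Finset.sum_le_sum fun i _ => hd i
      _ = p * c := by rw [Finset.sum_const, Finset.card_univ, Fintype.card_fin, nsmul_eq_mul]
  have h3 : M.det = (∏ i, hM.1.eigenvalues i ^ ((p : ℝ)⁻¹)) ^ p := by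
    rw [hdet, ← Finset.prod_pow]
    refine Finset.prod_congr rfl fun i _ => ?_
    rw [Real.rpow_inv_natCast_pow (hnn i) hp.ne']
  rw [h3]
  refine pow_le_pow_left₀ (Finset.prod_nonneg fun i _ => Real.rpow_nonneg (hnn i) _) ?_ p
  exact h1.trans h2

section Gram

variable {V : Type} [AddCommGroup V] [Module ℝ V] {p m : ℕ}

/-- Gram matrix -/
def gram (Q : LinearMap.BilinForm ℝ V) (v : Fin p → V) : Matrix (Fin p) (Fin p) ℝ :=
  Matrix.of fun s t => Q (v s) (v t)

/-- linear combination -/
def lc (v : Fin p → V) (x : Fin p → ℝ) : V := ∑ t, x t • v t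

theorem gram_quad (Q : LinearMap.BilinForm ℝ V) (v : Fin p → V) (x : Fin p → ℝ) :
    x ⬝ᵥ (gram Q v).mulVec x = Q (lc v x) (lc v x) := by
  have h1 : Q (lc v x) = ∑ s, x s • Q (v s) := by
    unfold lc
    rw [map_sum]
    exact Finset.sum_congr rfl fun s _ => map_smul _ _ _
  have h2 : ∀ s, Q (v s) (lc v x) = ∑ t, Q (v s) (v t) * x t := by
    intro s
    unfold lc
    rw [map_sum]
    refine Finset.sum_congr rfl fun t _ => ?_
    rw [map_smul, smul_eq_mul, mul_comm]
  rw [h1, LinearMap.sum_apply]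
  unfold dotProduct
  refine Finset.sum_congr rfl fun s _ => ?_
  rw [LinearMap.smul_apply, smul_eq_mul, h2]
  rfl

theorem gram_psd (Q : LinearMap.BilinForm ℝ V) (hQ : ∀ v, 0 ≤ Q v v)
    (hs : ∀ v w, Q v w = Q w v) (v : Fin p → V) : (gram Q v).PosSemidef := by
  refine Matrix.PosSemidef.of_dotProduct_mulVec_nonneg ?_ fun x => ?_
  · ext s t
    simp only [Matrix.conjTranspose_apply, star_trivial, gram, Matrix.of_apply]
    exact hs _ _
  · have h : star x = x := by
      funext i
      simp
    rw [h, gram_quad]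
    exact hQ _

/-- the matrix of functionals -/
def lmat (l : Fin p → V →ₗ[ℝ] ℝ) (v : Fin p → V) : Matrix (Fin p) (Fin p) ℝ :=
  Matrix.of fun s t => l s (v t)

theorem lmat_mulVec (l : Fin p → V →ₗ[ℝ] ℝ) (v : Fin p → V) (x : Fin p → ℝ) (s : Fin p) :
    (lmat l v).mulVec x s = l s (lc v x) := by
  unfold lc
  rw [map_sum]
  show ∑ t, l s (v t) * x t = _
  refine Finset.sum_congr rfl fun t _ => ?_
  rw [map_smul, smul_eq_mul, mul_comm]

theorem lmat_update (l : Fin p → V →ₗ[ℝ] ℝ) (v : Fin p → V) (t : Fin p) (w : V) :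
    lmat l (Function.update v t w) = (lmat l v).updateCol t (fun s => l s w) := by
  ext s t'
  unfold lmat
  by_cases h : t' = t
  · subst h
    simp [Matrix.updateCol_self]
  · rw [Matrix.of_apply, Function.update_of_ne h, Matrix.updateCol_ne h, Matrix.of_apply]

end Gram

theorem det_step (hDET : T_DET) {p m : ℕ} {V : Type} [AddCommGroup V] [Module ℝ V]
    (Q : ℕ → LinearMap.BilinForm ℝ V) (A : ℕ → V →ₗ[ℝ] (Fin m → ℝ)) (η : ℝ)
    (hη : 0 < η) (hη1 : η ≤ 1) (hQ : ∀ i v, 0 ≤ Q i v v) (hs : ∀ i v w, Q i v w = Q i w v)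
    (hmono : ∀ i v, Q (i + 1) v v ≤ Q i v v)
    (hcon : ∀ i v, A i v = 0 → Q (i + 1) v v ≤ η ^ 2 * Q i v v) (v : Fin p → V) (k : ℕ) :
    (gram (Q k) v).det ≤ η ^ (2 * (p - m) * k) * (gram (Q 0) v).det := by
  induction k with
  | zero => simp
  | succ k ih =>
    have h := hDET p m (gram (Q k) v) (gram (Q (k + 1)) v)
      (Matrix.of fun j t => A k (v t) j) η hη hη1 (gram_psd _ (hQ k) (hs k) v)
      (gram_psd _ (hQ (k + 1)) (hs (k + 1)) v) (fun x => by
        rw [gram_quad, gram_quad]
        exact hmono k _) (fun x hx => by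
        rw [gram_quad, gram_quad]
        refine hcon k _ ?_
        funext j
        have h1 := congrFun hx j
        unfold lc
        rw [map_sum, Finset.sum_apply]
        unfold Matrix.mulVec dotProduct at h1
        simp only [Matrix.of_apply, Pi.zero_apply] at h1
        rw [Pi.zero_apply, ← h1]
        refine Finset.sum_congr rfl fun t _ => ?_
        rw [map_smul, Pi.smul_apply, smul_eq_mul, mul_comm])
    refine h.trans ?_
    have h2 : (0 : ℝ) ≤ η ^ (2 * (p - m)) := by positivity
    calc η ^ (2 * (p - m)) * (gram (Q k) v).det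
        ≤ η ^ (2 * (p - m)) * (η ^ (2 * (p - m) * k) * (gram (Q 0) v).det) :=
          mul_le_mul_of_nonneg_left ih h2
      _ = η ^ (2 * (p - m) * (k + 1)) * (gram (Q 0) v).det := by
          rw [← mul_assoc, ← pow_add]
          congr 2
          ring

/-- module GRM -/
theorem grm (hDET : T_DET) : T_GRM := by
  intro p m k V _ _ Q A l B η hpm hp hB hη hη1 hQ hs hmono hcon hl
  have hpR : (0 : ℝ) < p := by exact_mod_cast hp
  set X : ℝ := (p * B ^ 2) ^ p * η ^ (2 * (p - m) * k) with hX
  have hX0 : 0 ≤ X := by positivity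
  -- Claim 1
  have claim1 : ∀ v : Fin p → V, (∀ t, Q 0 (v t) (v t) ≤ 1) → (lmat l v).det ^ 2 ≤ X := by
    intro v hv
    have h1 : (lmat l v).det ^ 2 = ((lmat l v)ᵀ * lmat l v).det := by
      rw [Matrix.det_mul, Matrix.det_transpose, sq]
    have hq : ∀ x : Fin p → ℝ, x ⬝ᵥ ((lmat l v)ᵀ * lmat l v).mulVec x =
        ∑ s, (l s (lc v x)) ^ 2 := by
      intro x
      rw [← Matrix.mulVec_mulVec, Matrix.dotProduct_mulVec, Matrix.vecMul_transpose]
      unfold dotProduct
      refine Finset.sum_congr rfl fun s _ => ?_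
      rw [lmat_mulVec, sq]
    have hpsd : ((lmat l v)ᵀ * lmat l v).PosSemidef := by
      have h := Matrix.posSemidef_conjTranspose_mul_self (lmat l v)
      have e : (lmat l v)ᴴ = (lmat l v)ᵀ := by
        ext i j
        simp
      rwa [e] at h
    have hpk : ((p * B ^ 2 : ℝ) • gram (Q k) v).PosSemidef :=
      (gram_psd _ (hQ k) (hs k) v).smul (by positivity)
    have h2 := hDET p 0 ((p * B ^ 2 : ℝ) • gram (Q k) v) ((lmat l v)ᵀ * lmat l v) 0 1 one_pos
      le_rfl hpk hpsd (fun x => by
        rw [hq, Matrix.smul_mulVec, dotProduct_smul, gram_quad, smul_eq_mul]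
        calc ∑ s, (l s (lc v x)) ^ 2 ≤ ∑ _s : Fin p, B ^ 2 * Q k (lc v x) (lc v x) :=
              Finset.sum_le_sum fun s _ => hl s _
          _ = p * B ^ 2 * Q k (lc v x) (lc v x) := by
              rw [Finset.sum_const, Finset.card_univ, Fintype.card_fin, nsmul_eq_mul, mul_assoc])
      (fun x _ => by
        rw [hq, Matrix.smul_mulVec, dotProduct_smul, gram_quad, smul_eq_mul, one_pow, one_mul]
        calc ∑ s, (l s (lc v x)) ^ 2 ≤ ∑ _s : Fin p, B ^ 2 * Q k (lc v x) (lc v x) :=
              Finset.sum_le_sum fun s _ => hl s _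
          _ = p * B ^ 2 * Q k (lc v x) (lc v x) := by
              rw [Finset.sum_const, Finset.card_univ, Fintype.card_fin, nsmul_eq_mul, mul_assoc])
    rw [one_pow, one_mul, Matrix.det_smul, Fintype.card_fin] at h2
    have h3 := det_step hDET Q A η hη hη1 hQ hs hmono hcon v k
    have h4 := det_le_diag (gram (Q 0) v) (gram_psd _ (hQ 0) (hs 0) v) 1 zero_le_one hv
    rw [one_pow] at h4
    rw [h1]
    refine h2.trans ?_
    rw [hX]
    refine mul_le_mul_of_nonneg_left ?_ (by positivity)
    calc (gram (Q k) v).det ≤ η ^ (2 * (p - m) * k) * (gram (Q 0) v).det := h3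
      _ ≤ η ^ (2 * (p - m) * k) * 1 := mul_le_mul_of_nonneg_left h4 (by positivity)
      _ = _ := mul_one _
  -- the set of determinants
  by_cases hzero : ∀ v : Fin p → V, (∀ t, Q 0 (v t) (v t) ≤ 1) → (lmat l v).det = 0
  · -- all determinants vanish
    have hall : ∀ v : Fin p → V, (lmat l v).det = 0 := by
      intro v
      set c : Fin p → ℝ := fun t => (1 + Q 0 (v t) (v t))⁻¹ with hc
      have hc0 : ∀ t, 0 < c t := fun t => by
        have := hQ 0 (v t)
        simp only [hc]
        positivity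
      have h1 := hzero (fun t => c t • v t) (fun t => by
        have h2 := hQ 0 (v t)
        have e : Q 0 (c t • v t) (c t • v t) = c t ^ 2 * Q 0 (v t) (v t) := by
          rw [map_smul, map_smul, LinearMap.smul_apply, smul_eq_mul, smul_eq_mul]
          ring
        rw [e]
        simp only [hc]
        rw [inv_pow, inv_mul_le_iff₀ (by positivity)]
        nlinarith)
      have h2 : lmat l (fun t => c t • v t) = Matrix.of fun s t => c t * (lmat l v) s t := by
        ext s t
        simp [lmat]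
      rw [h2, Matrix.det_mul_row] at h1
      have h3 : ∏ i, c i ≠ 0 := Finset.prod_ne_zero_iff.2 fun i _ => (hc0 i).ne'
      exact (mul_eq_zero.1 h1).resolve_left h3
    -- the range of `l` is a proper subspace
    let L : V →ₗ[ℝ] (Fin p → ℝ) := LinearMap.pi l
    have hr : LinearMap.range L ≠ ⊤ := by
      intro htop
      have hsurj : Function.Surjective L := LinearMap.range_eq_top.1 htop
      choose v hv using fun t : Fin p => hsurj (Pi.single t 1)
      have h1 : lmat l v = 1 := by
        ext s t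
        have h2 : L (v t) s = (Pi.single t (1 : ℝ) : Fin p → ℝ) s := by rw [hv t]
        have h3 : L (v t) s = l s (v t) := rfl
        rw [h3] at h2
        unfold lmat
        rw [Matrix.of_apply, h2, Matrix.one_apply, Pi.single_apply]
      have h4 := hall v
      rw [h1, Matrix.det_one] at h4
      exact one_ne_zero h4
    obtain ⟨f, hf0, hf⟩ := Submodule.exists_le_ker_of_lt_top (LinearMap.range L)
      (lt_top_iff_ne_top.2 hr)
    set a : Fin p → ℝ := fun s => f (Pi.single s 1) with ha
    have hfa : ∀ x : Fin p → ℝ, f x = ∑ s, x s * a s := by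
      intro x
      have hx : x = ∑ s, x s • (Pi.single s (1 : ℝ) : Fin p → ℝ) := by
        funext i
        simp [Finset.sum_apply, Pi.single_apply]
      conv_lhs => rw [hx]
      rw [map_sum]
      refine Finset.sum_congr rfl fun s _ => ?_
      rw [map_smul, smul_eq_mul]
    have hsum : 0 < ∑ s, a s ^ 2 := by
      refine lt_of_le_of_ne (Finset.sum_nonneg fun s _ => sq_nonneg _) fun h => hf0 ?_
      have h1 := (Finset.sum_eq_zero_iff_of_nonneg (fun s _ => sq_nonneg (a s))).1 h.symm
      refine LinearMap.ext fun x => ?_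
      rw [hfa, LinearMap.zero_apply]
      refine Finset.sum_eq_zero fun s hs' => ?_
      have h2 := h1 s hs'
      rw [pow_eq_zero_iff two_ne_zero] at h2
      rw [h2, mul_zero]
    have hav : ∀ v, ∑ s, a s * l s v = 0 := by
      intro v
      have h1 : f (L v) = 0 := hf ⟨v, rfl⟩
      rw [hfa] at h1
      rw [← h1]
      refine Finset.sum_congr rfl fun s _ => ?_
      rw [mul_comm]
      rfl
    set c : ℝ := (√(∑ s, a s ^ 2))⁻¹ with hc
    refine ⟨fun s => c * a s, ?_, fun v => ?_⟩
    · have h1 : ∑ s, (c * a s) ^ 2 = c ^ 2 * ∑ s, a s ^ 2 := by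
        rw [Finset.mul_sum]
        refine Finset.sum_congr rfl fun s _ => ?_
        ring
      rw [h1, hc, inv_pow, Real.sq_sqrt hsum.le, inv_mul_cancel₀ hsum.ne']
    · have h1 : ∑ s, c * a s * l s v = 0 := by
        have h2 : ∑ s, c * a s * l s v = c * ∑ s, a s * l s v := by
          rw [Finset.mul_sum]
          refine Finset.sum_congr rfl fun s _ => ?_
          ring
        rw [h2, hav, mul_zero]
      rw [h1, zero_pow two_ne_zero]
      exact mul_nonneg (by positivity) (hQ 0 v)
  · -- a nearly maximal determinant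
    push Not at hzero
    obtain ⟨v0, hv0, hd0⟩ := hzero
    set S : Set ℝ := {x | ∃ v : Fin p → V, (∀ t, Q 0 (v t) (v t) ≤ 1) ∧ x = |(lmat l v).det|} with hS
    have hSb : BddAbove S := by
      refine ⟨√X, ?_⟩
      rintro x ⟨v, hv, rfl⟩
      exact Real.abs_le_sqrt (claim1 v hv)
    have hSn : |(lmat l v0).det| ∈ S := ⟨v0, hv0, rfl⟩
    have hsup : 0 < sSup S := (abs_pos.2 hd0).trans_le (le_csSup hSb hSn)
    obtain ⟨x, ⟨v, hv, rfl⟩, hx⟩ := exists_lt_of_lt_csSup ⟨_, hSn⟩ (half_lt_self hsup)
    set D : ℝ := (lmat l v).det with hD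
    have hDpos : 0 < |D| := (half_pos hsup).trans hx
    have hD0 : D ≠ 0 := abs_pos.1 hDpos
    have hmax : ∀ v' : Fin p → V, (∀ t, Q 0 (v' t) (v' t) ≤ 1) → |(lmat l v').det| ≤ 2 * |D| := by
      intro v' hv'
      have := le_csSup hSb (show |(lmat l v').det| ∈ S from ⟨v', hv', rfl⟩)
      linarith
    set N : Matrix (Fin p) (Fin p) ℝ := (lmat l v)⁻¹ with hN
    have hNdet : N.det = D⁻¹ := by
      rw [hN, Matrix.det_nonsing_inv, Ring.inverse_eq_inv']
    -- Cramer
    have hcram : ∀ (t : Fin p) (w : V), ∑ s, N t s * l s w =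
        (lmat l (Function.update v t w)).det / D := by
      intro t w
      have hu : IsUnit (lmat l v).det := isUnit_iff_ne_zero.2 hD0
      have h1 : (lmat l v).cramer (fun s => l s w) t = (lmat l (Function.update v t w)).det := by
        rw [Matrix.cramer_apply, lmat_update]
      have h2 : (lmat l v).det • N.mulVec (fun s => l s w) = (lmat l v).cramer (fun s => l s w) :=
        Matrix.det_smul_inv_mulVec_eq_cramer _ _ hu
      have h3 := congrFun h2 t
      rw [h1, Pi.smul_apply, smul_eq_mul] at h3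
      rw [eq_div_iff hD0, ← h3, mul_comm]
      rfl
    have hbound : ∀ (t : Fin p) (w : V), (∑ s, N t s * l s w) ^ 2 ≤ 4 * Q 0 w w := by
      intro t w
      have hone : ∀ w : V, Q 0 w w ≤ 1 → |∑ s, N t s * l s w| ≤ 2 := by
        intro w hw
        rw [hcram, abs_div, div_le_iff₀ hDpos]
        refine hmax _ fun t' => ?_
        by_cases h : t' = t
        · subst h
          rw [Function.update_self]
          exact hw
        · rw [Function.update_of_ne h]
          exact hv t'
      have hscale : ∀ (c : ℝ) (w : V), ∑ s, N t s * l s (c • w) = c * ∑ s, N t s * l s w := by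
        intro c w
        rw [Finset.mul_sum]
        refine Finset.sum_congr rfl fun s _ => ?_
        rw [map_smul, smul_eq_mul]
        ring
      have hqs : ∀ (c : ℝ) (w : V), Q 0 (c • w) (c • w) = c ^ 2 * Q 0 w w := by
        intro c w
        rw [map_smul, map_smul, LinearMap.smul_apply, smul_eq_mul, smul_eq_mul]
        ring
      set q : ℝ := Q 0 w w with hq
      have hq0 : 0 ≤ q := hQ 0 w
      rcases hq0.eq_or_lt with h0 | h0
      · -- the form vanishes
        have h1 : ∀ c : ℝ, |c| * |∑ s, N t s * l s w| ≤ 2 := by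
          intro c
          have h2 := hone (c • w) (by rw [hqs, ← hq, ← h0]; simp)
          rwa [hscale, abs_mul] at h2
        have h2 : ∑ s, N t s * l s w = 0 := by
          by_contra hne
          have h3 := h1 (3 / |∑ s, N t s * l s w|)
          have h4 : 0 < |∑ s, N t s * l s w| := abs_pos.2 hne
          rw [abs_of_pos (by positivity), div_mul_cancel₀ _ h4.ne'] at h3
          linarith
        rw [h2, ← h0]
        simp
      · have h1 := hone ((√q)⁻¹ • w) (by
          rw [hqs, ← hq, inv_pow, Real.sq_sqrt hq0, inv_mul_cancel₀ h0.ne'])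
        rw [hscale, abs_mul, abs_of_pos (inv_pos.2 (Real.sqrt_pos.2 h0)),
          inv_mul_le_iff₀ (Real.sqrt_pos.2 h0)] at h1
        calc (∑ s, N t s * l s w) ^ 2 = |∑ s, N t s * l s w| ^ 2 := (sq_abs _).symm
          _ ≤ (√q * 2) ^ 2 := pow_le_pow_left₀ (abs_nonneg _) h1 2
          _ = 4 * q := by rw [mul_pow, Real.sq_sqrt hq0]; ring
    -- a long row
    obtain ⟨t0, -, ht0⟩ := Finset.exists_max_image (Finset.univ : Finset (Fin p))
      (fun t => ∑ s, N t s ^ 2) ⟨⟨0, hp⟩, Finset.mem_univ _⟩
    set c : ℝ := ∑ s, N t0 s ^ 2 with hc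
    have hc0 : 0 ≤ c := Finset.sum_nonneg fun s _ => sq_nonneg _
    have hdetN : N.det ^ 2 ≤ c ^ p := by
      have h1 : N.det ^ 2 = (N * Nᵀ).det := by
        rw [Matrix.det_mul, Matrix.det_transpose, sq]
      rw [h1]
      have hpsd : (N * Nᵀ).PosSemidef := by
        have h := Matrix.posSemidef_self_mul_conjTranspose N
        have e : Nᴴ = Nᵀ := by
          ext i j
          simp
        rwa [e] at h
      refine det_le_diag _ hpsd c hc0 fun i => ?_
      have h2 : (N * Nᵀ) i i = ∑ s, N i s ^ 2 := by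
        rw [Matrix.mul_apply]
        refine Finset.sum_congr rfl fun s _ => ?_
        rw [Matrix.transpose_apply, sq]
      rw [h2]
      exact ht0 i (Finset.mem_univ _)
    have hDX : D ^ 2 ≤ X := claim1 v hv
    have hcpos : 0 < c := by
      rcases hc0.eq_or_lt with h | h
      · exfalso
        rw [← h, zero_pow hp.ne', hNdet] at hdetN
        have : 0 < (D⁻¹) ^ 2 := by positivity
        linarith
      · exact h
    -- comparison
    set Y : ℝ := p * B ^ 2 * η ^ k with hY
    have hY0 : 0 ≤ Y := by positivity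
    have hXY : X ≤ Y ^ p := by
      rw [hX, hY, mul_pow _ (η ^ k) p, ← pow_mul]
      refine mul_le_mul_of_nonneg_left ?_ (by positivity)
      refine pow_le_pow_of_le_one hη.le hη1 ?_
      have : p ≤ 2 * (p - m) := by omega
      calc k * p = p * k := mul_comm _ _
        _ ≤ 2 * (p - m) * k := Nat.mul_le_mul_right _ this
    have hcY : c⁻¹ ≤ Y := by
      have h1 : (c⁻¹) ^ p ≤ Y ^ p := by
        rw [inv_pow]
        have h2 : (c ^ p)⁻¹ ≤ D ^ 2 := by
          rw [hNdet, inv_pow] at hdetN
          rw [inv_le_comm₀ (by positivity) (by positivity)]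
          exact hdetN
        exact h2.trans (hDX.trans hXY)
      exact le_of_pow_le_pow_left₀ hp.ne' hY0 h1
    refine ⟨fun s => (√c)⁻¹ * N t0 s, ?_, fun w => ?_⟩
    · have h1 : ∑ s, ((√c)⁻¹ * N t0 s) ^ 2 = (√c)⁻¹ ^ 2 * ∑ s, N t0 s ^ 2 := by
        rw [Finset.mul_sum]
        refine Finset.sum_congr rfl fun s _ => ?_
        ring
      rw [h1, ← hc, inv_pow, Real.sq_sqrt hc0, inv_mul_cancel₀ hcpos.ne']
    · have h1 : ∑ s, (√c)⁻¹ * N t0 s * l s w = (√c)⁻¹ * ∑ s, N t0 s * l s w := by
        rw [Finset.mul_sum]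
        refine Finset.sum_congr rfl fun s _ => ?_
        ring
      rw [h1, mul_pow, inv_pow, Real.sq_sqrt hc0]
      have h2 := hbound t0 w
      have h3 : 0 ≤ Q 0 w w := hQ 0 w
      calc c⁻¹ * (∑ s, N t0 s * l s w) ^ 2 ≤ Y * (4 * Q 0 w w) :=
            mul_le_mul hcY h2 (sq_nonneg _) hY0
        _ = 4 * p * B ^ 2 * η ^ k * Q 0 w w := by rw [hY]; ring

end Pool.Agent.H19.IC
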