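import Mathlib
import Pool.Agent.H94.IC.Targets3

/-!
# Module LAT of MP_0ee698_an: lattice sums
-/

open MeasureTheory Set Filter Topology Metric
open scoped ENNReal NNReal ContDiff RealInnerProductSpace

namespace Pool.Agent.H19.IC

open Pool.Agent.H94.IC

theorem card_lat (y : E) (R : ℝ) (hR : 0 ≤ R) (F : Finset (Fin 3 → ℤ))
    (hF : ∀ κ ∈ F, ‖y - lp κ‖ ≤ R) : (F.card : ℝ) ≤ (4 * R + 1) ^ 3 := by
  have hsub : F ⊆ Fintype.piFinset fun k : Fin 3 =>
      Finset.Icc ⌈2 * y k - 2 * R⌉ ⌊2 * y k + 2 * R⌋ := by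
    intro κ hκ
    rw [Fintype.mem_piFinset]
    intro k
    have h1 := PiLp.norm_apply_le (y - lp κ) k
    have h2 : (y - lp κ) k = y k - (κ k : ℝ) / 2 := by
      simp [Pool.Agent.H94.IC.lp]
    rw [h2, Real.norm_eq_abs] at h1
    have h3 := abs_le.1 (h1.trans (hF κ hκ))
    rw [Finset.mem_Icc, Int.ceil_le, Int.le_floor]
    constructor <;> linarith [h3.1, h3.2]
  have h1 := Finset.card_le_card hsub
  rw [Fintype.card_piFinset] at h1
  have h2 : (F.card : ℝ) ≤ ∏ k : Fin 3, ((Finset.Icc ⌈2 * y k - 2 * R⌉ ⌊2 * y k + 2 * R⌋).card : ℝ) := by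
    exact_mod_cast h1
  refine h2.trans ?_
  have h3 : ∀ k : Fin 3, ((Finset.Icc ⌈2 * y k - 2 * R⌉ ⌊2 * y k + 2 * R⌋).card : ℝ) ≤ 4 * R + 1 := by
    intro k
    rw [Int.card_Icc]
    have h4 : (((⌊2 * y k + 2 * R⌋ + 1 - ⌈2 * y k - 2 * R⌉).toNat : ℤ) : ℝ) ≤ 4 * R + 1 := by
      rw [Int.toNat_eq_max]
      push_cast
      refine max_le ?_ (by linarith)
      have h5 := Int.floor_le (2 * y k + 2 * R)
      have h6 := Int.le_ceil (2 * y k - 2 * R)
      linarith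
    exact_mod_cast h4
  calc ∏ k : Fin 3, ((Finset.Icc ⌈2 * y k - 2 * R⌉ ⌊2 * y k + 2 * R⌋).card : ℝ)
      ≤ ∏ _k : Fin 3, (4 * R + 1) := Finset.prod_le_prod (fun k _ => by positivity) fun k _ => h3 k
    _ = (4 * R + 1) ^ 3 := by
      rw [Finset.prod_const, Finset.card_univ, Fintype.card_fin]

/-- module LAT -/
theorem lat : T_LAT := by
  intro c hc
  set A : ℝ := (4 + 13 / c) ^ 3 with hA
  have hA0 : 0 < A := by positivity
  refine ⟨16 * A, by positivity, ?_⟩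
  intro y T F d hT hF
  have hT0 : 0 < T := hc.trans_le hT
  have hex : ∀ κ, ∃ n : ℕ, d κ < 2 ^ (n + 1) * T := by
    intro κ
    obtain ⟨n, hn⟩ := pow_unbounded_of_one_lt (d κ / T) (one_lt_two : (1 : ℝ) < 2)
    refine ⟨n, ?_⟩
    rw [div_lt_iff₀ hT0] at hn
    refine hn.trans_le ?_
    refine mul_le_mul_of_nonneg_right ?_ hT0.le
    exact pow_le_pow_right₀ one_le_two (Nat.le_succ n)
  classical
  set jj : (Fin 3 → ℤ) → ℕ := fun κ => Nat.find (hex κ) with hjj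
  have hj1 : ∀ κ, d κ < 2 ^ (jj κ + 1) * T := fun κ => Nat.find_spec (hex κ)
  have hj2 : ∀ κ ∈ F, 2 ^ (jj κ) * T ≤ d κ := by
    intro κ hκ
    by_cases h0 : jj κ = 0
    · rw [h0, pow_zero, one_mul]
      exact (hF κ hκ).1
    · obtain ⟨m, hm⟩ := Nat.exists_eq_succ_of_ne_zero h0
      have h1 := Nat.find_min (hex κ) (m := m) (by
        show m < jj κ
        omega)
      rw [hm]
      exact not_lt.1 h1
  set J : ℕ := F.sup jj + 1 with hJ
  have hpt : ∀ κ ∈ F, (d κ)⁻¹ ^ 4 ≤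
      ∑ j ∈ Finset.range J, if d κ < 2 ^ (j + 1) * T then ((2 : ℝ) ^ j * T)⁻¹ ^ 4 else 0 := by
    intro κ hκ
    have hmem : jj κ ∈ Finset.range J := by
      rw [Finset.mem_range, hJ]
      have := Finset.le_sup (f := jj) hκ
      omega
    have h1 := Finset.single_le_sum (f := fun j => if d κ < 2 ^ (j + 1) * T then
      ((2 : ℝ) ^ j * T)⁻¹ ^ 4 else 0) (fun j _ => by
        split_ifs
        · positivity
        · exact le_rfl) hmem
    refine le_trans ?_ h1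
    rw [if_pos (hj1 κ)]
    have h2 := hj2 κ hκ
    have h3 : (0 : ℝ) < 2 ^ (jj κ) * T := by positivity
    have h4 : (d κ)⁻¹ ≤ ((2 : ℝ) ^ (jj κ) * T)⁻¹ := inv_anti₀ h3 h2
    have h5 : 0 ≤ (d κ)⁻¹ := inv_nonneg.2 (h3.le.trans h2)
    exact pow_le_pow_left₀ h5 h4 4
  have hcount : ∀ j : ℕ, ((F.filter fun κ => d κ < 2 ^ (j + 1) * T).card : ℝ) ≤
      A * (2 ^ (j + 1) * T) ^ 3 := by
    intro j
    set lam : ℝ := 2 ^ (j + 1) * T with hlam
    have hl1 : T ≤ lam := by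
      have h6 : (1 : ℝ) ≤ 2 ^ (j + 1) := one_le_pow₀ one_le_two
      rw [hlam]
      nlinarith
    have hl0 : 0 < lam := hT0.trans_le hl1
    have h1 := card_lat y (lam + 3) (by linarith) (F.filter fun κ => d κ < lam) (by
      intro κ hκ
      rw [Finset.mem_filter] at hκ
      have := (hF κ hκ.1).2
      linarith [hκ.2])
    refine h1.trans ?_
    rw [hA, ← mul_pow]
    refine pow_le_pow_left₀ (by linarith) ?_ 3
    have h2 : 13 ≤ 13 / c * lam := by
      rw [div_mul_eq_mul_div, le_div_iff₀ hc]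
      nlinarith
    linarith
  calc ∑ κ ∈ F, (d κ)⁻¹ ^ 4
      ≤ ∑ κ ∈ F, ∑ j ∈ Finset.range J, (if d κ < 2 ^ (j + 1) * T then
          ((2 : ℝ) ^ j * T)⁻¹ ^ 4 else 0) := Finset.sum_le_sum hpt
    _ = ∑ j ∈ Finset.range J, ((F.filter fun κ => d κ < 2 ^ (j + 1) * T).card : ℝ) *
          ((2 : ℝ) ^ j * T)⁻¹ ^ 4 := by
        rw [Finset.sum_comm]
        refine Finset.sum_congr rfl fun j _ => ?_
        rw [← Finset.sum_filter, Finset.sum_const, nsmul_eq_mul]
    _ ≤ ∑ j ∈ Finset.range J, (A * (2 ^ (j + 1) * T) ^ 3) * ((2 : ℝ) ^ j * T)⁻¹ ^ 4 :=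
        Finset.sum_le_sum fun j _ => mul_le_mul_of_nonneg_right (hcount j) (by positivity)
    _ = ∑ j ∈ Finset.range J, (8 * A / T) * (1 / 2) ^ j := by
        refine Finset.sum_congr rfl fun j _ => ?_
        have h2 : (2 : ℝ) ^ j ≠ 0 := by positivity
        have h4 : (1 / 2 : ℝ) ^ j = ((2 : ℝ) ^ j)⁻¹ := by rw [one_div, inv_pow]
        rw [h4, pow_succ (2 : ℝ) j]
        generalize (2 : ℝ) ^ j = q at h2
        field_simp
        ring
    _ = (8 * A / T) * ∑ j ∈ Finset.range J, (1 / 2 : ℝ) ^ j := by rw [Finset.mul_sum]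
    _ ≤ (8 * A / T) * 2 := by
        refine mul_le_mul_of_nonneg_left ?_ (by positivity)
        have h3 := (summable_geometric_two).sum_le_tsum (Finset.range J)
          (fun j _ => by positivity)
        rw [tsum_geometric_two] at h3
        exact h3
    _ = 16 * A / T := by ring

end Pool.Agent.H19.IC
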