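import Mathlib
import Pool.Agent.H94.IC.Targets3

/-!
# Modules RK2, LOC, MTY of MP_0ee698_an
-/

open MeasureTheory Set Filter Topology Metric
open scoped ENNReal NNReal ContDiff RealInnerProductSpace

namespace Pool.Agent.H19.IC

open Pool.Agent.H94.IC

theorem pd_eq (k : Fin 3) (f : E → ℝ) (x : E) : pd k f x = (gr f x) k := by
  unfold pd gr
  rw [← inner_gradient_left, EuclideanSpace.inner_single_right]
  simp

/-- module RK2 -/
theorem rk2 : T_RK2 := by
  intro N O u x hx
  set g : Fin N → E := fun i => gr (u i) x with hg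
  by_cases hS : Submodule.span ℝ (range g) = ⊤
  · exfalso
    obtain ⟨κ, a, ha, hspan, hli⟩ := exists_linearIndependent' ℝ g
    let b := Module.Basis.mk hli (by rw [hspan, hS])
    have hcard : Nat.card κ = 3 := by
      rw [← Module.finrank_eq_nat_card_basis b]
      simp
    have hfin : Finite κ := Nat.finite_of_card_ne_zero (by rw [hcard]; norm_num)
    let e : κ ≃ Fin 3 := Finite.equivFinOfCardEq hcard
    have hli2 : LinearIndependent ℝ (fun j : Fin 3 => g (a (e.symm j))) :=
      hli.comp _ e.symm.injective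
    have hli3 : LinearIndependent ℝ
        (fun j : Fin 3 => (WithLp.linearEquiv 2 ℝ (Fin 3 → ℝ)) (g (a (e.symm j)))) :=
      hli2.map' _ (LinearEquiv.ker _)
    set A : Matrix (Fin 3) (Fin 3) ℝ := Matrix.of fun j k => (g (a (e.symm j))) k with hA
    have hli4 : LinearIndependent ℝ A.row := hli3
    have hdet := (Matrix.isUnit_iff_isUnit_det A).1 (Matrix.linearIndependent_rows_iff_isUnit.1 hli4)
    have h0 := hx.2 (a (e.symm 0), a (e.symm 1), a (e.symm 2)) []
    simp only [wd, jac3] at h0
    have hAe : Matrix.of ![fun k => pd k (u (a (e.symm 0))) x, fun k => pd k (u (a (e.symm 1))) x,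
        fun k => pd k (u (a (e.symm 2))) x] = A := by
      ext j k
      fin_cases j <;> simp [hA, hg, pd_eq]
    rw [hAe] at h0
    rw [h0] at hdet
    exact not_isUnit_zero hdet
  · have h1 : (Submodule.span ℝ (range g))ᗮ ≠ ⊥ := by
      rw [Ne, Submodule.orthogonal_eq_bot_iff]
      exact hS
    obtain ⟨v, hv, hv0⟩ := Submodule.exists_mem_ne_zero_of_ne_bot h1
    refine ⟨‖v‖⁻¹ • v, ?_, ?_⟩
    · rw [norm_smul, norm_inv, norm_norm]
      exact inv_mul_cancel₀ (norm_ne_zero_iff.2 hv0)
    · intro i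
      rw [inner_smul_right]
      have h2 : ⟪g i, v⟫ = 0 := by
        rw [Submodule.mem_orthogonal] at hv
        exact hv (g i) (Submodule.subset_span ⟨i, rfl⟩)
      have h3 : ⟪gr (u i) x, v⟫ = 0 := h2
      rw [h3, mul_zero]

theorem pd_congr {f g : E → ℝ} {O : Set E} (hO : IsOpen O) (h : ∀ y ∈ O, f y = g y) (k : Fin 3) :
    ∀ y ∈ O, pd k f y = pd k g y := by
  intro y hy
  unfold pd
  have h1 : f =ᶠ[𝓝 y] g := by
    filter_upwards [hO.mem_nhds hy] with z hz using h z hz
  rw [h1.fderiv_eq]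

theorem wd_congr {N : ℕ} {u u' : Fin N → E → ℝ} {O : Set E} (hO : IsOpen O)
    (h : ∀ i, ∀ y ∈ O, u i y = u' i y) (b : Fin N × Fin N × Fin N) (l : List (Fin N)) :
    ∀ y ∈ O, wd u b l y = wd u' b l y := by
  induction l with
  | nil =>
    intro y hy
    simp only [wd, jac3]
    simp only [pd_congr hO (h _) _ y hy]
  | cons i l ih =>
    intro y hy
    simp only [wd, Lu]
    simp only [pd_congr hO (h _) _ y hy, pd_congr hO ih _ y hy]

/-- module LOC -/
theorem loc : T_LOC := by
  intro N O O' u u' x hO hO' hx hx' h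
  have h1 := fun b l => wd_congr (hO.inter hO') h b l x ⟨hx, hx'⟩
  unfold Pool.Agent.H94.IC.Inv
  constructor
  · rintro ⟨-, h2⟩
    exact ⟨hx', fun b l => by rw [← h1]; exact h2 b l⟩
  · rintro ⟨-, h2⟩
    exact ⟨hx, fun b l => by rw [h1]; exact h2 b l⟩

theorem HH_succ (w : E) (k : ℕ) (y : E) : HH w (k + 1) y = fderiv ℝ (HH w k) y w := by
  unfold HH
  rw [Function.iterate_succ_apply']

theorem HH_smooth (w : E) (k : ℕ) : ContDiffOn ℝ ∞ (HH w k) {0}ᶜ := by
  induction k with
  | zero =>
    intro y hy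
    have h1 : ContDiffAt ℝ ∞ (fun y : E => ‖y‖⁻¹) y :=
      (contDiffAt_norm ℝ hy).inv (norm_ne_zero_iff.2 hy)
    exact h1.contDiffWithinAt
  | succ k ih =>
    have h1 : HH w (k + 1) = fun y => fderiv ℝ (HH w k) y w := funext (HH_succ w k)
    rw [h1]
    have h2 : ContDiffOn ℝ ∞ (fderiv ℝ (HH w k)) {0}ᶜ :=
      ih.fderiv_of_isOpen isOpen_compl_singleton (by norm_cast)
    exact h2.clm_apply contDiffOn_const

/-- module MTY -/
theorem mty : T_MTY := by
  intro w y k hy
  have key : ∀ k : ℕ, ∀ t : ℝ, y - t • w ≠ 0 →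
      iteratedDeriv k (fun t : ℝ => ‖y - t • w‖⁻¹) t = (-1) ^ k * HH w k (y - t • w) := by
    intro k
    induction k with
    | zero =>
      intro t _
      simp [HH]
    | succ k ih =>
      intro t ht
      rw [iteratedDeriv_succ]
      have hev : iteratedDeriv k (fun t : ℝ => ‖y - t • w‖⁻¹) =ᶠ[𝓝 t]
          fun s => (-1) ^ k * HH w k (y - s • w) := by
        have h1 : ContinuousAt (fun s : ℝ => y - s • w) t := by fun_prop
        filter_upwards [h1.eventually_ne ht] with s hs using ih s hs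
      rw [hev.deriv_eq]
      have h2 : DifferentiableAt ℝ (HH w k) (y - t • w) :=
        ((HH_smooth w k).contDiffAt (isOpen_compl_singleton.mem_nhds ht)).differentiableAt (by simp)
      have h3 : HasDerivAt (fun s : ℝ => y - s • w) (-w) t := by
        have h4 := ((hasDerivAt_id t).smul_const w).const_sub y
        simpa using h4
      have h5 := (h2.hasFDerivAt.comp_hasDerivAt t h3).const_mul ((-1 : ℝ) ^ k)
      have h6 : HasDerivAt (fun s : ℝ => (-1 : ℝ) ^ k * HH w k (y - s • w))
          ((-1) ^ k * (fderiv ℝ (HH w k) (y - t • w)) (-w)) t := h5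
      rw [h6.deriv, HH_succ, map_neg, pow_succ]
      ring
  have h := key k 0 (by simpa using hy)
  simpa using h

end Pool.Agent.H19.IC
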